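import Mathlib
import Pool.Agent.R845.E3.Stm

/-! # E3-AT: elementary properties of `shear` -/

set_option autoImplicit false

namespace Pool.Agent.R845.E3

open MvPolynomial Pool.Agent.TH314.PD IntermediateField Module FF

noncomputable section

namespace At1

/-- the substitution which defines `shear` -/
def shv {k m : ℕ} {K : Type} [Field K] (U : Fin (k + 1) → Fin (m + 1) → K) :
    Fin (k + 1 + (m + 1)) → MvPolynomial (Fin (k + 1 + (m + 1))) K :=
  Fin.append (fun i => X (Fin.castAdd (m + 1) i))
    (fun j => X (Fin.natAdd (k + 1) j) + ∑ i, C (U i j) * X (Fin.castAdd (m + 1) i))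

theorem shear_eq {k m : ℕ} {K : Type} [Field K] (U : Fin (k + 1) → Fin (m + 1) → K)
    (F : MvPolynomial (Fin (k + 1 + (m + 1))) K) : shear U F = aeval (shv U) F := rfl

theorem shv_left {k m : ℕ} {K : Type} [Field K] (U : Fin (k + 1) → Fin (m + 1) → K)
    (i : Fin (k + 1)) : shv U (Fin.castAdd (m + 1) i) = X (Fin.castAdd (m + 1) i) := by
  unfold shv
  rw [Fin.append_left]

theorem shv_right {k m : ℕ} {K : Type} [Field K] (U : Fin (k + 1) → Fin (m + 1) → K)
    (j : Fin (m + 1)) : shv U (Fin.natAdd (k + 1) j) =
      X (Fin.natAdd (k + 1) j) + ∑ i, C (U i j) * X (Fin.castAdd (m + 1) i) := by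
  unfold shv
  rw [Fin.append_right]

theorem shear_hom {k m : ℕ} {K : Type} [Field K] (U : Fin (k + 1) → Fin (m + 1) → K)
    (F : MvPolynomial (Fin (k + 1 + (m + 1))) K) (hF : F.IsHomogeneous 3) :
    (shear U F).IsHomogeneous 3 := by
  have h := hF.aeval (shv U) (n := 1) (by
    intro i
    refine Fin.addCases (fun i => ?_) (fun j => ?_) i
    · rw [shv_left]
      exact isHomogeneous_X _ _
    · rw [shv_right]
      refine (isHomogeneous_X _ _).add ?_
      refine IsHomogeneous.sum _ _ _ fun i _ => ?_
      have := (isHomogeneous_C (Fin (k + 1 + (m + 1))) (U i j)).mul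
        (isHomogeneous_X K (Fin.castAdd (m + 1) i))
      simpa using this)
  simpa [shear_eq] using h

theorem map_shear {k m : ℕ} {K : Type} [Field K] [Algebra ℂ K]
    (U : Fin (k + 1) → Fin (m + 1) → ℂ) (F : MvPolynomial (Fin (k + 1 + (m + 1))) ℂ) :
    map (algebraMap ℂ K) (shear U F) =
      shear (fun i j => algebraMap ℂ K (U i j)) (map (algebraMap ℂ K) F) := by
  rw [shear_eq, shear_eq]
  induction F using MvPolynomial.induction_on with
  | C a => simp
  | add p q hp hq => simp only [map_add, hp, hq]
  | mul_X p j hp =>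
    simp only [map_mul, hp, aeval_X, map_X]
    congr 1
    refine Fin.addCases (fun i => ?_) (fun j => ?_) j
    · rw [shv_left, shv_left, map_X]
    · rw [shv_right, shv_right, map_add, map_X, map_sum]
      simp

theorem shear_shear {k m : ℕ} {K : Type} [Field K]
    (U V : Fin (k + 1) → Fin (m + 1) → K) (F : MvPolynomial (Fin (k + 1 + (m + 1))) K) :
    shear V (shear U F) = shear (fun i j => U i j + V i j) F := by
  rw [shear_eq, shear_eq, shear_eq]
  induction F using MvPolynomial.induction_on with
  | C a => simp
  | add p q hp hq => simp only [map_add, hp, hq]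
  | mul_X p j hp =>
    simp only [map_mul, hp, aeval_X]
    congr 1
    refine Fin.addCases (fun i => ?_) (fun j => ?_) j
    · rw [shv_left, shv_left, aeval_X, shv_left]
    · rw [shv_right, shv_right, map_add, aeval_X, shv_right, map_sum,
        add_assoc (X (Fin.natAdd (k + 1) j) : MvPolynomial (Fin (k + 1 + (m + 1))) K),
        ← Finset.sum_add_distrib]
      congr 1
      refine Finset.sum_congr rfl fun i _ => ?_
      rw [map_mul, aeval_C, aeval_X, shv_left, map_add, MvPolynomial.algebraMap_eq]
      ring

theorem aeval_shear {k m : ℕ} {K A : Type} [Field K] [CommRing A] [Algebra K A]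
    (U : Fin (k + 1) → Fin (m + 1) → K) (F : MvPolynomial (Fin (k + 1 + (m + 1))) K)
    (x : Fin (k + 1) → A) (y : Fin (m + 1) → A) :
    aeval (Fin.append x y) (shear U F) =
      aeval (Fin.append x (fun j => y j + ∑ i, algebraMap K A (U i j) * x i)) F := by
  rw [shear_eq]
  induction F using MvPolynomial.induction_on with
  | C a => simp
  | add p q hp hq => simp only [map_add, hp, hq]
  | mul_X p j hp =>
    simp only [map_mul, hp, aeval_X]
    congr 1
    refine Fin.addCases (fun i => ?_) (fun j => ?_) j
    · rw [shv_left, aeval_X, Fin.append_left, Fin.append_left]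
    · rw [shv_right, map_add, aeval_X, map_sum, Fin.append_right, Fin.append_right]
      congr 1
      refine Finset.sum_congr rfl fun i _ => ?_
      rw [map_mul, aeval_C, aeval_X, Fin.append_left]

/-- smoothness is invariant -/
theorem sm_shear {k m : ℕ} (U : Fin (k + 1) → Fin (m + 1) → ℂ)
    (F : MvPolynomial (Fin (k + 1 + (m + 1))) ℂ) (hF : Sm F) : Sm (shear U F) := by
  intro z hz
  -- the image of the point
  set w : Fin (k + 1 + (m + 1)) → ℂ := fun i => eval z (shv U i) with hw
  have hev : ∀ H : MvPolynomial (Fin (k + 1 + (m + 1))) ℂ,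
      eval z (aeval (shv U) H) = eval w H := by
    intro H
    induction H using MvPolynomial.induction_on with
    | C a => simp
    | add p q hp hq => simp only [map_add, hp, hq]
    | mul_X p j hp => simp only [map_mul, hp, aeval_X, eval_X, hw]
  have hch : ∀ i, ∑ j, eval w (pderiv j F) * eval z (pderiv i (shv U j)) = 0 := by
    intro i
    have h1 := hz i
    rw [shear_eq, chain_rule (pderiv i) (shv U) F, map_sum] at h1
    simpa only [map_mul, hev] using h1
  have hR : ∀ j : Fin (m + 1), eval w (pderiv (Fin.natAdd (k + 1) j) F) = 0 := by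
    intro j
    have h1 := hch (Fin.natAdd (k + 1) j)
    rw [Fin.sum_univ_add] at h1
    have h2 : ∀ i : Fin (k + 1),
        pderiv (Fin.natAdd (k + 1) j) (shv U (Fin.castAdd (m + 1) i)) = 0 := by
      intro i
      rw [shv_left]
      exact pderiv_X_of_ne (fun h => by
        have := congrArg Fin.val h
        simp at this
        omega)
    have h3 : ∀ j' : Fin (m + 1),
        pderiv (Fin.natAdd (k + 1) j) (shv U (Fin.natAdd (k + 1) j')) =
          if j' = j then 1 else 0 := by
      intro j'
      rw [shv_right, map_add, map_sum]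
      have h4 : ∑ i, pderiv (Fin.natAdd (k + 1) j) (C (U i j') * X (Fin.castAdd (m + 1) i)) =
          (0 : MvPolynomial (Fin (k + 1 + (m + 1))) ℂ) := by
        refine Finset.sum_eq_zero fun i _ => ?_
        rw [pderiv_mul, pderiv_C, zero_mul, zero_add]
        rw [pderiv_X_of_ne (fun h => by
          have := congrArg Fin.val h
          simp at this
          omega), mul_zero]
      rw [h4, add_zero]
      split_ifs with h
      · rw [h, pderiv_X_self]
      · exact pderiv_X_of_ne (fun h' => h (Fin.natAdd_injective _ _ h'))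
    simp only [h2, h3, map_zero, mul_zero, Finset.sum_const_zero, zero_add] at h1
    rw [Finset.sum_eq_single j] at h1
    · simpa using h1
    · intro b _ hb
      simp [hb]
    · intro h
      exact absurd (Finset.mem_univ _) h
  have hL : ∀ i : Fin (k + 1), eval w (pderiv (Fin.castAdd (m + 1) i) F) = 0 := by
    intro i
    have h1 := hch (Fin.castAdd (m + 1) i)
    rw [Fin.sum_univ_add] at h1
    simp only [hR, zero_mul, Finset.sum_const_zero, add_zero, shv_left] at h1
    rw [Finset.sum_eq_single i] at h1
    · simpa using h1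
    · intro b _ hb
      rw [pderiv_X_of_ne (fun h' => hb (Fin.castAdd_injective _ _ h')), map_zero, mul_zero]
    · intro h
      exact absurd (Finset.mem_univ _) h
  have hw0 : w = 0 := hF w (by
    intro i
    refine Fin.addCases (fun i => hL i) (fun j => hR j) i)
  have hzL : ∀ i : Fin (k + 1), z (Fin.castAdd (m + 1) i) = 0 := by
    intro i
    have := congrFun hw0 (Fin.castAdd (m + 1) i)
    simpa [hw, shv_left] using this
  funext i
  refine Fin.addCases (fun i => ?_) (fun j => ?_) i
  · exact hzL i
  · have := congrFun hw0 (Fin.natAdd (k + 1) j)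
    simpa [hw, shv_right, hzL] using this

/-- the numerical step -/
theorem num_lt {k m : ℕ} (h3 : 3 ≤ k + m) (hmk : m ≤ k) :
    (k + 1) * (m + 1) < (k + 3).choose 3 := by
  have hk : 2 ≤ k := by omega
  have h1 : (k + 1) * (m + 1) ≤ (k + 1) * (k + 1) := Nat.mul_le_mul_left _ (by omega)
  have h2 : (k + 3).choose 3 * 6 = (k + 3) * (k + 2) * (k + 1) := by
    have := Nat.choose_mul_factorial_mul_factorial (n := k + 3) (k := 3) (by omega)
    have h4 : (k + 3 - 3) = k := by omega
    rw [h4] at this
    have h5 : (3 : ℕ).factorial = 6 := rfl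
    rw [h5] at this
    have h6 : (k + 3).factorial = (k + 3) * (k + 2) * (k + 1) * k.factorial := by
      rw [Nat.factorial_succ, Nat.factorial_succ, Nat.factorial_succ]
      ring
    rw [h6] at this
    exact Nat.eq_of_mul_eq_mul_right (Nat.factorial_pos k) this
  nlinarith

end At1

end

end Pool.Agent.R845.E3
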