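import Mathlib

set_option autoImplicit false

/-!
# The Zariski topology of an infinite product of symmetric groups `S₃`

For `G = ∏_ℕ S₃` the Zariski topology of `G` is the product topology, so it is compact and
Hausdorff. The reason: `S₃` has trivial centre, so the set of all `x` with `x i = a` is the
intersection of six solution sets of one-variable equations; there are six possible values `a`,
so each of these sets is both open and closed.
-/

namespace Pool.Agent.R668.ZarProd

/-- the symmetric group on three letters -/
abbrev F3 : Type := Equiv.Perm (Fin 3)

/-- the product of countably many copies of `S₃` -/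
abbrev GG : Type := ℕ → F3

/-- the centre of `S₃` is trivial -/
theorem center_trivial : ∀ a : F3, (∀ f : F3, a * f * a⁻¹ * f⁻¹ = 1) → a = 1 := by
  decide

instance : TopologicalSpace F3 := ⊥
instance : DiscreteTopology F3 := ⟨rfl⟩

/-- The abstract comparison: a topology on `G = ∏ S₃`, generated by sets which are open in the
product topology, in which the solution sets of the equations
`(a⁻¹ x) f (a⁻¹ x)⁻¹ f⁻¹ = 1` are closed, is the product topology. -/
theorem eq_pi (B : Set (Set GG))
    (h1 : ∀ U ∈ B, @IsOpen GG Pi.topologicalSpace U)
    (h2 : ∀ a f : GG, {x : GG | (a⁻¹ * x) * f * (a⁻¹ * x)⁻¹ * f⁻¹ = 1}ᶜ ∈ B) :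
    TopologicalSpace.generateFrom B = (Pi.topologicalSpace : TopologicalSpace GG) := by
  apply le_antisymm
  · -- every open set of the product topology is open
    refine le_iInf (fun i => ?_)
    rw [← continuous_iff_le_induced]
    -- the sets `x i = a` are closed
    have hcl : ∀ a : F3, @IsOpen GG (TopologicalSpace.generateFrom B) {x : GG | x i ≠ a} := by
      intro a
      have e : {x : GG | x i ≠ a} = ⋃ f : F3,
          {x : GG | ((Pi.mulSingle i a : GG)⁻¹ * x) * (Pi.mulSingle i f : GG) *
            ((Pi.mulSingle i a : GG)⁻¹ * x)⁻¹ * (Pi.mulSingle i f : GG)⁻¹ = 1}ᶜ := by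
        ext x
        simp only [Set.mem_setOf_eq, Set.mem_iUnion, Set.mem_compl_iff]
        constructor
        · intro hx
          by_contra hcon
          push Not at hcon
          apply hx
          have h3 : a⁻¹ * x i = 1 := by
            apply center_trivial
            intro f
            have := congrFun (hcon f) i
            simpa using this
          exact (inv_mul_eq_one.1 h3).symm
        · rintro ⟨f, hf⟩ hx
          apply hf
          funext j
          by_cases hj : j = i
          · subst hj
            simp [hx]
          · simp [Pi.mulSingle_eq_of_ne hj]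
      rw [e]
      exact @isOpen_iUnion _ _ (TopologicalSpace.generateFrom B) _
        (fun f => TopologicalSpace.isOpen_generateFrom_of_mem (h2 _ _))
    refine @Continuous.mk _ _ (TopologicalSpace.generateFrom B) _ _ (fun V _ => ?_)
    have e : (fun x : GG => x i) ⁻¹' V = ⋂ a ∈ (Vᶜ : Set F3), {x : GG | x i ≠ a} := by
      ext x
      simp only [Set.mem_preimage, Set.mem_iInter, Set.mem_compl_iff, Set.mem_setOf_eq]
      constructor
      · rintro hx a ha rfl
        exact ha hx
      · intro h
        by_contra hx
        exact h _ hx rfl
    change @IsOpen GG (TopologicalSpace.generateFrom B) ((fun x : GG => x i) ⁻¹' V)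
    rw [e]
    exact @Set.Finite.isOpen_biInter _ _ (TopologicalSpace.generateFrom B) _ _
      (Set.toFinite _) (fun a _ => hcl a)
  · exact le_generateFrom h1

end Pool.Agent.R668.ZarProd
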